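import Pool.Agent.Lib.MP_1a91b9_ntX.DX.Defs

/-!
# DH: the Selmer version of the top: definitions

Port of MP_1a91b9_ntT/DH/Defs.lean to the curves `y² = x³ + D`.
-/

set_option autoImplicit false

namespace Pool.Agent.Lib.MP_1a91b9_ntX.DH

open NumberField IsDedekindDomain WeierstrassCurve Pool.Agent.Lib.MP_1a91b9_ntT
open Pool.Agent.Lib.MP_1a91b9_ntX.DB Pool.Agent.Lib.MP_1a91b9_ntX.DX

universe u

variable [DD] [HC]

noncomputable section

/-- The cocycle `κ` is locally trivial at `W`: there is a field `M` with a valuation `v` which extends the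
one of `W`, in which `L` is dense, and a point `P` over `M`, such that for every `g` in the
decomposition group of `W` some isometric endomorphism `f` of `M` extends `g` and `f P - P = κ g`. -/
def LocSol {F L : Type u} [Field F] [NumberField F] [Algebra K F] [Field L] [NumberField L]
    [Algebra K L] [Algebra F L] [IsScalarTower K F L] [DecidableEq L] (κ : Gal(L/F) → Pt L)
    (W : HeightOneSpectrum (𝓞 L)) : Prop :=
  ∃ (M : Type u) (_ : Field M) (_ : Algebra K M) (_ : Algebra L M) (_ : IsScalarTower K L M)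
    (_ : DecidableEq M) (v : Valuation M (WithZero (Multiplicative ℤ))) (P : Pt M),
    (∀ x : L, v (algebraMap L M x) = W.valuation L x) ∧
    (∀ (m : M) (n : ℕ), ∃ x : L, v (m - algebraMap L M x) ≤ WithZero.exp (-(n : ℤ))) ∧
    ∀ g : Gal(L/F), gpl g W = W → ∃ f : M →ₐ[K] M, (∀ m, v (f m) = v m) ∧
      (∀ x : L, f (algebraMap L M x) = algebraMap L M (g x)) ∧
      pm f P - P = pm (IsScalarTower.toAlgHom K L M) (κ g)

section
variable {F N N₂ L : Type u} [Field F] [NumberField F] [Algebra K F] [Field N] [NumberField N]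
  [Algebra K N] [Field N₂] [NumberField N₂] [Algebra K N₂] [Field L] [NumberField L] [Algebra K L]
  [Algebra F N] [Algebra F N₂] [Algebra F L] [Algebra N L] [Algebra N₂ L]
  [IsScalarTower K F N] [IsScalarTower K F N₂] [IsScalarTower K F L] [IsScalarTower K N L]
  [IsScalarTower K N₂ L] [IsScalarTower F N L] [IsScalarTower F N₂ L]
  [DecidableEq F] [DecidableEq N] [DecidableEq N₂] [DecidableEq L]
  [IsGalois F N] [IsGalois F N₂] [IsGalois F L]

/-- The data: `P₀` has annihilator `(ϖ)` and generates `N`, `P₂` has annihilator `(cj ϖ)` and generates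
`N₂`; `ζ` is an `ℓ`-th root of unity; `κ` is a cocycle with values in the points killed by `cj ϖ`; `L` is
generated by all of these. -/
structure TC (ϖ : 𝓞 K) (ℓ q : ℕ) (P₀ : Pt N) (P₂ : Pt N₂) (ζ : L) (κ : Gal(L/F) → Pt L) :
    Prop where
  pd : PD ϖ ℓ q
  full : Full F ϖ P₀
  full₂ : Full F (cj ϖ) P₂
  zeta : IsPrimitiveRoot ζ ℓ
  coc : ∀ g h : Gal(L/F), κ (g * h) = κ g + ga g (κ h)
  tor : ∀ g : Gal(L/F), sm L (cj ϖ) (κ g) = 0
  gen : ∀ σ : Gal(L/F), ga σ (up L P₀) = up L P₀ → ga σ (up L P₂) = up L P₂ → κ σ = 0 →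
    σ ζ = ζ → σ = 1

variable {ϖ : 𝓞 K} {ℓ q : ℕ} {P₀ : Pt N} {P₂ : Pt N₂} {ζ : L} {κ : Gal(L/F) → Pt L}
  (D : TC ϖ ℓ q P₀ P₂ ζ κ)
include D

theorem TC.exists_d (g : Gal(L/F)) :
    ∃ d : 𝓞 K, ¬ ϖ ∣ d ∧ ga g (up L P₀) = sm L d (up L P₀) := by
  obtain ⟨c, hc1, hc2⟩ := gal_sm (k := F) D.pd.prime.ne_zero ((ord_up L).2 D.full.ord) g
  refine ⟨c, fun hd => ?_, hc2⟩
  exact D.pd.prime.not_isUnit (hc1.isUnit_of_dvd' hd dvd_rfl)

theorem TC.exists_c (g : Gal(L/F)) :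
    ∃ c : 𝓞 K, ¬ cj ϖ ∣ c ∧ ga g (up L P₂) = sm L c (up L P₂) := by
  have hp := (pd_cj D.pd).prime
  obtain ⟨c, hc1, hc2⟩ := gal_sm (k := F) hp.ne_zero ((ord_up L).2 D.full₂.ord) g
  refine ⟨c, fun hd => ?_, hc2⟩
  exact hp.not_isUnit (hc1.isUnit_of_dvd' hd dvd_rfl)

theorem TC.exists_x (g : Gal(L/F)) : ∃ x : ℕ, g ζ = ζ ^ x := by
  have h1 : (g ζ) ^ ℓ = 1 := by
    rw [← map_pow, D.zeta.pow_eq_one, map_one]
  haveI : NeZero ℓ := ⟨D.pd.hl.ne_zero⟩
  obtain ⟨i, _, hi⟩ := D.zeta.eq_pow_of_pow_eq_one h1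
  exact ⟨i, hi.symm⟩

/-- the values of the cocycle -/
theorem TC.exists_kap (g : Gal(L/F)) : ∃ x : 𝓞 K, κ g = sm L x (up L P₂) := by
  obtain ⟨f⟩ := exists_emb L
  have hp := (pd_cj D.pd).prime
  exact ord_cases f hp.ne_zero ((ord_up L).2 D.full₂.ord) (D.tor g)

theorem TC.kap_unique {x y : 𝓞 K} :
    sm L x (up L P₂) = sm L y (up L P₂) ↔ cj ϖ ∣ x - y := by
  exact Ord.sm_eq_iff ((ord_up L).2 D.full₂.ord) x y

theorem TC.rs_one (g : Gal(L/F)) (hg : ga g (up L P₀) = up L P₀) : rs N g = 1 := by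
  apply D.full.gen
  rw [← up_inj L, ← ga_up]
  exact hg

theorem TC.kap_one : κ 1 = 0 := by
  have h := D.coc 1 1
  rw [mul_one, ga_one] at h
  exact left_eq_add.mp h

end

end

end Pool.Agent.Lib.MP_1a91b9_ntX.DH
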