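import Pool.Agent.Lib.MP_1a91b9_ntX.DH.Tr
import Pool.Agent.Lib.MP_1a91b9_ntX.DX.Ex

/-!
# DH: divisibility of the points over the algebraic closure, the action of `𝓞 K` on cocycles

Port of MP_1a91b9_ntT/DH/Dv.lean to the curves `y² = x³ + D`.
-/

set_option autoImplicit false

namespace Pool.Agent.Lib.MP_1a91b9_ntX.DH

open NumberField IsDedekindDomain WeierstrassCurve Pool.Agent.Lib.MP_1a91b9_ntT
open Pool.Agent.Lib.MP_1a91b9_ntX.DB Pool.Agent.Lib.MP_1a91b9_ntX.DX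
open scoped Classical

universe u

variable [DD] [HC]

section
variable {F : Type u} [Field F] [NumberField F] [Algebra K F]

private theorem dva_pt {F' T : Type u} [Field F'] [NumberField F'] [Algebra K F']
    [Field T] [NumberField T] [Algebra K T] [Algebra F' T] [IsScalarTower K F' T]
    [DecidableEq T] {Ω : Type u} [Field Ω] [IsAlgClosed Ω] [Algebra K Ω] [Algebra F' Ω]
    [IsScalarTower K F' Ω] {β : 𝓞 K} (Q₁ : Pt F') (R₁ : Pt T) (hR : sm T β R₁ = up T Q₁) :
    ∃ R' : Pt Ω, sm Ω β R' = pm (IsScalarTower.toAlgHom K F' Ω) Q₁ := by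
  have hfin : Module.Finite F' T := Module.Finite.of_restrictScalars_finite ℚ F' T
  have hal : Algebra.IsAlgebraic F' T := Algebra.IsAlgebraic.of_finite F' T
  let e : T →ₐ[F'] Ω := IsAlgClosed.lift
  refine ⟨pm (e.restrictScalars K) R₁, ?_⟩
  rw [← pm_sm, hR]
  rcases cases_pt Q₁ with rfl | ⟨a, b, h, rfl⟩
  · rw [up, map_zero, map_zero, map_zero]
  · obtain ⟨h1, e1⟩ := pm_mk (IsScalarTower.toAlgHom K F' T) a b h
    obtain ⟨h2, e2⟩ := pm_mk (e.restrictScalars K) (IsScalarTower.toAlgHom K F' T a)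
      (IsScalarTower.toAlgHom K F' T b) h1
    obtain ⟨h3, e3⟩ := pm_mk (IsScalarTower.toAlgHom K F' Ω) a b h
    rw [up, e1, e2, e3, mk_inj]
    exact ⟨e.commutes a, e.commutes b⟩

private theorem dva_gen {F' : Type u} [Field F'] [NumberField F'] [Algebra K F']
    {Ω : Type u} [Field Ω] [IsAlgClosed Ω] [Algebra K Ω] [Algebra F' Ω]
    [IsScalarTower K F' Ω] {β : 𝓞 K} (hβ : β ≠ 0) {x y : Ω} (h : y ^ 2 = x ^ 3 + dD Ω) (x' y' : F')
    (hx : algebraMap F' Ω x' = x) (hy : algebraMap F' Ω y' = y) :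
    ∃ R' : Pt Ω, sm Ω β R' = mkPt x y h := by
  have he : y' ^ 2 = x' ^ 3 + dD F' := by
    apply (algebraMap F' Ω).injective
    rw [map_add, map_pow, map_pow, hx, hy, dD, map_intCast]
    exact h
  obtain ⟨T, i1, i2, i3, i4, i5, i6, R₁, hR₁⟩ := exists_div hβ (mkPt x' y' he)
  obtain ⟨R', hR'⟩ := dva_pt (Ω := Ω) (mkPt x' y' he) R₁ hR₁
  refine ⟨R', hR'.trans ?_⟩
  obtain ⟨h1, e1⟩ := pm_mk (IsScalarTower.toAlgHom K F' Ω) x' y' he
  rw [e1, mk_inj]
  exact ⟨hx, hy⟩

private theorem dva_aux {β : 𝓞 K} (hβ : β ≠ 0) (Q : Pt (AlgebraicClosure F)) :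
    ∃ R : Pt (AlgebraicClosure F), sm (AlgebraicClosure F) β R = Q := by
  rcases cases_pt Q with rfl | ⟨x, y, h, rfl⟩
  · exact ⟨0, map_zero _⟩
  · have hfin : FiniteDimensional F
        (IntermediateField.adjoin F ({x, y} : Set (AlgebraicClosure F))) :=
      IntermediateField.finiteDimensional_adjoin fun a _ =>
        (Algebra.IsAlgebraic.isAlgebraic a).isIntegral
    have hnf : NumberField (IntermediateField.adjoin F ({x, y} : Set (AlgebraicClosure F))) :=
      NumberField.of_module_finite F _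
    have hst : IsScalarTower K (IntermediateField.adjoin F ({x, y} : Set (AlgebraicClosure F)))
        (AlgebraicClosure F) := IsScalarTower.of_algebraMap_eq fun _ => rfl
    have hxm : x ∈ IntermediateField.adjoin F ({x, y} : Set (AlgebraicClosure F)) :=
      IntermediateField.subset_adjoin F _ (Set.mem_insert _ _)
    have hym : y ∈ IntermediateField.adjoin F ({x, y} : Set (AlgebraicClosure F)) :=
      IntermediateField.subset_adjoin F _ (Set.mem_insert_of_mem _ (Set.mem_singleton _))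
    exact dva_gen hβ h (⟨x, hxm⟩ : IntermediateField.adjoin F ({x, y} : Set (AlgebraicClosure F)))
      ⟨y, hym⟩ rfl rfl

/-- the points over the algebraic closure are divisible -/
theorem div_Om {β : 𝓞 K} (hβ : β ≠ 0) (Q : S9.Pts (E F) (AlgebraicClosure F)) :
    ∃ R : S9.Pts (E F) (AlgebraicClosure F), smF F (AlgebraicClosure F) β R = Q := by
  obtain ⟨R', hR'⟩ := dva_aux (F := F) hβ (tr F (AlgebraicClosure F) Q)
  refine ⟨(tr F (AlgebraicClosure F)).symm R', ?_⟩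
  apply (tr F (AlgebraicClosure F)).injective
  rw [tr_smF, AddEquiv.apply_symm_apply, hR']

theorem smF_coc (a : 𝓞 K) {C : S9.Gal F → S9.Pts (E F) (AlgebraicClosure F)}
    (hC : C ∈ S9.coc (E F)) : (fun σ => smF F (AlgebraicClosure F) a (C σ)) ∈ S9.coc (E F) := by
  obtain ⟨hC1, hC2⟩ := hC
  refine ⟨hC1.comp (smF F (AlgebraicClosure F) a), fun σ τ => ?_⟩
  show smF F (AlgebraicClosure F) a (C (σ * τ)) = smF F (AlgebraicClosure F) a (C σ) +
    Affine.Point.map (σ : AlgebraicClosure F →ₐ[F] _) (smF F (AlgebraicClosure F) a (C τ))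
  rw [hC2, _root_.map_add, smF_map]

theorem smF_triv (a : 𝓞 K) {C : S9.Gal F → S9.Pts (E F) (AlgebraicClosure F)} {L : Type*}
    [Field L] [Algebra F L] (hC : C ∈ S9.trivOver (E F) L) :
    (fun σ => smF F (AlgebraicClosure F) a (C σ)) ∈ S9.trivOver (E F) L := by
  intro i
  obtain ⟨P, hP⟩ := hC i
  refine ⟨smF F (AlgebraicClosure L) a P, fun σ τ h => ?_⟩
  show Affine.Point.map i (smF F (AlgebraicClosure F) a (C τ)) =
    Affine.Point.map ((σ : AlgebraicClosure L →ₐ[L] _).restrictScalars F)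
      (smF F (AlgebraicClosure L) a P) - smF F (AlgebraicClosure L) a P
  rw [smF_map, hP σ τ h, _root_.map_sub, smF_map]

theorem smF_sha (a : 𝓞 K) {C : S9.Gal F → S9.Pts (E F) (AlgebraicClosure F)}
    (hC : C ∈ S9.shaCoc (E F)) :
    (fun σ => smF F (AlgebraicClosure F) a (C σ)) ∈ S9.shaCoc (E F) := by
  have h1 : C ∈ ⨅ v : HeightOneSpectrum (𝓞 F), S9.trivOver (E F) (v.adicCompletion F) := hC.1.2
  have h2 : C ∈ ⨅ v : InfinitePlace F, S9.trivOver (E F) v.Completion := hC.2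
  refine ⟨⟨smF_coc a hC.1.1, ?_⟩, ?_⟩
  · exact AddSubgroup.mem_iInf.2 fun v => smF_triv a (AddSubgroup.mem_iInf.1 h1 v)
  · exact AddSubgroup.mem_iInf.2 fun v => smF_triv a (AddSubgroup.mem_iInf.1 h2 v)

/-- devissage: division by `β` -/
theorem dev {β : 𝓞 K} (hβ0 : β ≠ 0) (hβ : ∀ C ∈ S9.shaCoc (E F),
      (∀ σ, smF F (AlgebraicClosure F) β (C σ) = 0) → C ∈ S9.cob (E F))
    {C : S9.Gal F → S9.Pts (E F) (AlgebraicClosure F)} (hC : C ∈ S9.shaCoc (E F))
    (h : (fun σ => smF F (AlgebraicClosure F) β (C σ)) ∈ S9.cob (E F)) : C ∈ S9.cob (E F) := by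
  obtain ⟨Q, hQ⟩ := h
  obtain ⟨R, hR⟩ := div_Om hβ0 Q
  have hd : (fun σ : S9.Gal F => Affine.Point.map (σ : AlgebraicClosure F →ₐ[F] _) R - R) ∈
      S9.cob (E F) := ⟨R, fun σ => rfl⟩
  have hc' : C - (fun σ : S9.Gal F => Affine.Point.map (σ : AlgebraicClosure F →ₐ[F] _) R - R) ∈
      S9.cob (E F) := by
    refine hβ _ (sub_mem hC (S9.cob_le_shaCoc (E F) hd)) fun σ => ?_
    have h1 : smF F (AlgebraicClosure F) β (C σ) =
        Affine.Point.map (σ : AlgebraicClosure F →ₐ[F] _) Q - Q := hQ σ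
    rw [Pi.sub_apply, _root_.map_sub, h1, _root_.map_sub, ← smF_map, hR, sub_self]
  have h5 := add_mem hc' hd
  rwa [sub_add_cancel] at h5

end

end Pool.Agent.Lib.MP_1a91b9_ntX.DH
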