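import Pool.Agent.Lib.MP_1a91b9_ntX.DX.SatA
import Pool.Agent.Lib.MP_1a91b9_ntT.DH.Sat

/-!
# DH: saturation of the kernel of reduction over an extension `M` of a number field `L`, `y² = x³ + D`

PROOF. Transport from the old curve (compare `ker_of_sm` in ntX/DX/SatA.lean and `ker_of_val` in ntX/DB/Ram.lean). `M' = AlgebraicClosure M`
(universe `u`; `Algebra K M'`, `Algebra L M'` through `M`). `δ ∈ M'` with `16 δ ^ 6 = dD M'` (`IsAlgClosed.exists_pow_nat_eq`). `L' = IntermediateField.adjoin L {δ}`
inside `M'` (`δ` is algebraic over `L` since `δ ^ 6` is rational): a number field (`IntermediateField.finiteDimensional_adjoin`, `NumberField.of_module_finite`), with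
`Algebra K L'`, `IsScalarTower K L' M'`, `δL : L'` with `16 δL ^ 6 = dD L'`. `B` from `exists_val_ext v` (`F' = M'`), `v' = B.valuation`: `val_ext_lt`, `val_ext_eq`
(ntX/DB/VExt.lean); `v' (algebraMap K M' β) < 1`, `v' (bD M') = 1`. Apply `MP_1a91b9_ntT.DH.ker_of_smM (L := L') (M := M') v' hβ hβ1` to
`R₁ = (phi L' δL _).symm (pm (L → L') R)` (`Ord β R₁`: `phi_ord`, `Ord.map`) and `Q₁ = (phi M' δ _).symm (pm (M → M') Q)`: `sm β Q₁` is in the kernel (`phi_ker`,
`phi_sm`, `pm_sm`, and `Ker v' (pm g P) ↔ Ker v P` since `1 < v' (algebraMap x) ↔ 1 < v x`). So `Q₁` is in the kernel, hence `pm Q` (`phi_ker`), hence `Q`.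
-/

set_option autoImplicit false

namespace Pool.Agent.Lib.MP_1a91b9_ntX.DH

open NumberField IsDedekindDomain WeierstrassCurve Pool.Agent.Lib.MP_1a91b9_ntT
open Pool.Agent.Lib.MP_1a91b9_ntX.DB Pool.Agent.Lib.MP_1a91b9_ntX.DX

universe u

variable [DD]

private theorem SatB_ker {M M' : Type*} [Field M] [Field M'] [Algebra K M] [Algebra K M'] [Algebra M M']
    [IsScalarTower K M M'] [DecidableEq M] [DecidableEq M'] {Γ Γ' : Type*} [LinearOrderedCommGroupWithZero Γ]
    [LinearOrderedCommGroupWithZero Γ'] (v : Valuation M Γ) (v' : Valuation M' Γ')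
    (h : ∀ x : M, v' (algebraMap M M' x) ≤ 1 ↔ v x ≤ 1) (P : Pt M) :
    Ker v' (pm (IsScalarTower.toAlgHom K M M') P) ↔ Ker v P := by
  have h1 : pm (IsScalarTower.toAlgHom K M M') P = 0 ↔ P = 0 := by
    constructor
    · intro h2
      exact pm_inj _ (h2.trans (map_zero _).symm)
    · rintro rfl
      exact map_zero _
  unfold Ker
  rw [h1, xc_pm, ← not_le, ← not_le]
  exact or_congr Iff.rfl (not_congr (h (xc P)))

private theorem SatB_ext (L M' : Type u) [Field L] [NumberField L] [Algebra K L] [Field M'] [Algebra K M']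
    [Algebra L M'] [IsScalarTower K L M'] {δ : M'} (hδ : 16 * δ ^ 6 = dD M') :
    ∃ (L' : Type u) (_ : Field L') (_ : NumberField L') (_ : Algebra K L') (_ : Algebra L L')
      (_ : IsScalarTower K L L') (_ : Algebra L' M') (_ : IsScalarTower K L' M'),
      ∃ δ' : L', 16 * δ' ^ 6 = dD L' := by
  have h16 : (16 : L) ≠ 0 := by norm_num
  have hL : algebraMap L M' (dD L / 16) = δ ^ 6 := by
    have h1 : (16 : M') = algebraMap L M' 16 := (map_ofNat _ 16).symm
    have h2 : dD M' = algebraMap L M' (dD L) := (map_intCast _ _).symm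
    have h3 : algebraMap L M' 16 ≠ 0 := (map_ne_zero _).2 h16
    rw [map_div₀, ← h2, ← hδ, h1]
    exact mul_div_cancel_left₀ _ h3
  have hint : IsIntegral L δ := by
    refine IsIntegral.of_pow (n := 6) (by norm_num) ?_
    rw [← hL]
    exact isIntegral_algebraMap
  have hfd : FiniteDimensional L (IntermediateField.adjoin L {δ}) := IntermediateField.adjoin.finiteDimensional hint
  have htow : IsScalarTower K (IntermediateField.adjoin L {δ}) M' := by
    refine IsScalarTower.of_algebraMap_eq fun x => ?_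
    rw [IsScalarTower.algebraMap_apply K L (IntermediateField.adjoin L {δ}) x,
      ← IsScalarTower.algebraMap_apply L (IntermediateField.adjoin L {δ}) M', ← IsScalarTower.algebraMap_apply K L M']
  refine ⟨IntermediateField.adjoin L {δ}, inferInstance, NumberField.of_module_finite L _, inferInstance,
    inferInstance, inferInstance, inferInstance, htow,
    ⟨δ, IntermediateField.subset_adjoin L {δ} (Set.mem_singleton δ)⟩, ?_⟩
  apply Subtype.ext
  have h2 : ((dD (IntermediateField.adjoin L {δ}) : IntermediateField.adjoin L {δ}) : M') = dD M' :=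
    map_intCast (algebraMap (IntermediateField.adjoin L {δ}) M') _
  rw [h2]
  exact hδ

section
variable {L M : Type u} [Field L] [NumberField L] [Algebra K L] [DecidableEq L] [Field M]
  [Algebra K M] [Algebra L M] [IsScalarTower K L M] [DecidableEq M]

/-- the kernel of reduction is saturated with respect to a prime element of the residue
characteristic -/
theorem ker_of_smM {Γ : Type*} [LinearOrderedCommGroupWithZero Γ] (v : Valuation M Γ) {β : 𝓞 K}
    (hβ : Prime β) (hβ1 : (3 : 𝓞 K) ∣ β - 1) {R : Pt L} (hR : Ord β R)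
    (hv : v (algebraMap K M (β : K)) < 1) (hb : v (bD M) = 1) {Q : Pt M}
    (hQ : Ker v (sm M β Q)) : Ker v Q := by
  classical
  have h16 : (16 : AlgebraicClosure M) ≠ 0 := by
    have hc : CharZero (AlgebraicClosure M) := by
      have hc1 : CharZero L := inferInstance
      exact charZero_of_injective_algebraMap (algebraMap L (AlgebraicClosure M)).injective
    norm_num
  obtain ⟨δ, hδ'⟩ := IsAlgClosed.exists_pow_nat_eq (dD (AlgebraicClosure M) / 16) (n := 6) (by norm_num)
  have hδ : 16 * δ ^ 6 = dD (AlgebraicClosure M) := by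
    rw [hδ']
    exact mul_div_cancel₀ _ h16
  obtain ⟨L', i1, i2, i3, i4, i5, i6, i7, δL, hδL⟩ := SatB_ext L (AlgebraicClosure M) hδ
  obtain ⟨B, h⟩ := exists_val_ext (F' := AlgebraicClosure M) v
  have hb' : B.valuation (bD (AlgebraicClosure M)) = 1 := by
    have e : bD (AlgebraicClosure M) = algebraMap M (AlgebraicClosure M) (bD M) := (map_intCast _ _).symm
    rw [e]
    exact (val_ext_eq v B.valuation h _).2 hb
  have hv' : B.valuation (algebraMap K (AlgebraicClosure M) (β : K)) < 1 := by
    rw [IsScalarTower.algebraMap_apply K M (AlgebraicClosure M) (β : K)]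
    exact (val_ext_lt v B.valuation h _).2 hv
  set R₁ : MP_1a91b9_ntT.DB.Pt L' := (phi L' δL hδL).symm (pm (IsScalarTower.toAlgHom K L L') R) with hR₁d
  have hRR : phi L' δL hδL R₁ = pm (IsScalarTower.toAlgHom K L L') R := (phi L' δL hδL).apply_symm_apply _
  have hR₁ : MP_1a91b9_ntT.DB.Ord β R₁ := by
    refine (phi_ord hδL).1 ?_
    rw [hRR]
    exact (Ord.map (IsScalarTower.toAlgHom K L L')).2 hR
  set g : M →ₐ[K] AlgebraicClosure M := IsScalarTower.toAlgHom K M (AlgebraicClosure M) with hg
  set Q₁ : MP_1a91b9_ntT.DB.Pt (AlgebraicClosure M) := (phi (AlgebraicClosure M) δ hδ).symm (pm g Q) with hQ₁d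
  have hQQ : phi (AlgebraicClosure M) δ hδ Q₁ = pm g Q := (phi (AlgebraicClosure M) δ hδ).apply_symm_apply _
  have hQ₁ : MP_1a91b9_ntT.DB.Ker B.valuation (MP_1a91b9_ntT.DB.sm (AlgebraicClosure M) β Q₁) := by
    rw [← phi_ker hδ B.valuation hb', phi_sm, hQQ, ← pm_sm]
    exact (SatB_ker v B.valuation h _).2 hQ
  have k1 := MP_1a91b9_ntT.DH.ker_of_smM (L := L') (M := AlgebraicClosure M) B.valuation hβ hβ1 hR₁ hv' hQ₁
  rw [← phi_ker hδ B.valuation hb', hQQ] at k1
  exact (SatB_ker v B.valuation h _).1 k1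

end

end Pool.Agent.Lib.MP_1a91b9_ntX.DH
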