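import Pool.Agent.Lib.MP_1a91b9_ntX.DX.Ex

/-!
# DH: no torsion of order `ℓ` over a field in which `ℓ` is unramified

Port of MP_1a91b9_ntT/DH/Tor.lean to the curves `y² = x³ + D`.
-/

set_option autoImplicit false

namespace Pool.Agent.Lib.MP_1a91b9_ntX.DH

open NumberField IsDedekindDomain WeierstrassCurve Pool.Agent.Lib.MP_1a91b9_ntT
open Pool.Agent.Lib.MP_1a91b9_ntX.DB Pool.Agent.Lib.MP_1a91b9_ntX.DX

universe u

variable [DD] [HC]

section
variable {ϖ : 𝓞 K} {ℓ q : ℕ} (h : PD ϖ ℓ q) {F : Type u} [Field F] [NumberField F] [Algebra K F]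
  [DecidableEq F]
  (hun : ∀ v : HeightOneSpectrum (𝓞 F), v.valuation F (ℓ : F) < 1 → od v (ℓ : F) = 1)
include h hun

/-- no point of `F` is killed by `ϖ` -/
theorem no_tors {P : Pt F} (hP : sm F ϖ P = 0) : P = 0 := by
  obtain ⟨N, iN1, iN2, iN3, iN4, iN5, iN6, iN7, P₀, hP₀⟩ := exists_full h F hun
  by_contra hne
  have hu : Ord ϖ (up N P) := (ord_up N).2 (ord_of_prime h.prime hP hne)
  obtain ⟨f⟩ := exists_emb N
  obtain ⟨c, hc⟩ := ord_cases f h.prime.ne_zero hP₀.ord ((hu ϖ).2 dvd_rfl)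
  -- a number `d` prime to `ϖ` and not congruent to `1`
  have h2 : ¬ ϖ ∣ ((2 : ℤ) : 𝓞 K) := by
    rw [h.dvd_int_iff]
    intro h4
    have h5 := Int.le_of_dvd (by norm_num) h4
    have := h.five
    omega
  obtain ⟨σ, hσ⟩ := hP₀.all _ h2
  have h3 : ga σ (up N P) = up N P := by
    rcases cases_pt P with rfl | ⟨x, y, hxy, rfl⟩
    · exact absurd rfl hne
    · have e0 : up N (mkPt x y hxy) ≠ 0 := by
        intro e
        exact mk_ne_zero x y hxy ((up_inj N).1 (e.trans (up_zero N).symm))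
      have e1 : ga σ (up N (mkPt x y hxy)) ≠ 0 := fun e => e0 (pm_inj _ (e.trans (map_zero _).symm))
      refine pt_ext e1 e0 ?_ ?_
      · rw [xc_ga, xc_up, AlgEquiv.commutes]
      · rw [yc_ga, yc_up, AlgEquiv.commutes]
  have h4 : sm N ((2 : ℤ) : 𝓞 K) (up N P) = sm N (1 : 𝓞 K) (up N P) := by
    have e1 : ga σ (up N P) = sm N ((2 : ℤ) : 𝓞 K) (up N P) := by
      rw [hc, ga_sm, hσ]
      have e2 : sm N c (sm N ((2 : ℤ) : 𝓞 K) P₀) = sm N (c * ((2 : ℤ) : 𝓞 K)) P₀ := by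
        rw [map_mul]
        rfl
      have e3 : sm N ((2 : ℤ) : 𝓞 K) (sm N c P₀) = sm N (((2 : ℤ) : 𝓞 K) * c) P₀ := by
        rw [map_mul]
        rfl
      rw [e2, e3, mul_comm]
    rw [← e1, h3, map_one]
    rfl
  have h5 := (hu.sm_eq_iff _ _).1 h4
  have h6 : ϖ ∣ (1 : 𝓞 K) := by
    have e : ((2 : ℤ) : 𝓞 K) - 1 = 1 := by
      push_cast
      norm_num
    rwa [e] at h5
  exact h.prime.not_isUnit (isUnit_of_dvd_one h6)

/-- no point of `F` has order `ℓ` -/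
theorem no_tors_ell {P : Pt F} (hP : ℓ • P = 0) : P = 0 := by
  have hq : sm F (q : 𝓞 K) P = 0 := by
    rw [sm_nat]
    rcases h.alt with e | e
    · rw [e]
      exact hP
    · rw [e, pow_two, mul_nsmul, hP, nsmul_zero]
  rw [← pd_mul_cj h, map_mul] at hq
  exact no_tors (pd_cj h) hun (no_tors h hun hq)

theorem card_coprime_pt [Finite (Pt F)] : (Nat.card (Pt F)).Coprime ℓ := by
  rw [Nat.coprime_comm, h.hl.coprime_iff_not_dvd]
  intro hd
  have : Fact ℓ.Prime := ⟨h.hl⟩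
  obtain ⟨P, hP⟩ := exists_prime_addOrderOf_dvd_card' ℓ hd
  have h1 : P = 0 := no_tors_ell h hun (by rw [← hP]; exact addOrderOf_nsmul_eq_zero P)
  rw [h1, addOrderOf_zero] at hP
  exact h.hl.one_lt.ne hP

end

end Pool.Agent.Lib.MP_1a91b9_ntX.DH
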