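import Pool.Agent.Lib.MP_1a91b9_ntX.DH.Lev
import Pool.Agent.Lib.MP_1a91b9_ntX.DH.Triv
import Pool.Agent.Lib.MP_1a91b9_ntX.DB.VT

/-!
# DH: a locally trivial cocycle is a coboundary when `VT` holds (adapted from DX/Top)

Port of MP_1a91b9_ntT/DH/Vv.lean to the curves `y² = x³ + D`.
-/

set_option autoImplicit false

namespace Pool.Agent.Lib.MP_1a91b9_ntX.DH

open NumberField IsDedekindDomain WeierstrassCurve Pool.Agent.Lib.MP_1a91b9_ntT
open Pool.Agent.Lib.MP_1a91b9_ntX.DB Pool.Agent.Lib.MP_1a91b9_ntX.DX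

universe u

variable [DD] [HC]

private theorem vh_ram {ϖ : 𝓞 K} {ℓ q : ℕ} (h : PD ϖ ℓ q) {F N : Type u} [Field F] [NumberField F]
    [Algebra K F] [Field N] [NumberField N] [Algebra K N] [Algebra F N] [IsScalarTower K F N]
    [DecidableEq N] [IsGalois F N]
    (hun : ∀ v : HeightOneSpectrum (𝓞 F), v.valuation F (ℓ : F) < 1 → od v (ℓ : F) = 1)
    {P₀ : Pt N} (hP₀ : Full F ϖ P₀) (w : HeightOneSpectrum (𝓞 N))
    (hw : w.valuation N (algebraMap K N (ϖ : K)) < 1) :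
    od w (tc P₀) = 1 ∧ od w (ℓ : N) = (q : ℤ) - 1 ∧ ∀ σ : Gal(N/F), gpl σ w = w := by
  have hv : (w.under (𝓞 F)).valuation F (algebraMap K F (ϖ : K)) < 1 := by
    rw [← val_map_lt, ← IsScalarTower.algebraMap_apply K F N]
    exact hw
  have hvl : (w.under (𝓞 F)).valuation F (ℓ : F) < 1 := (pd_val_ell_iff h).2 (Or.inl hv)
  have h1 := hun _ hvl
  have h2 := od_of_un h hv h1
  obtain ⟨-, h3, -⟩ := ram h.prime h.one hP₀.ord hP₀.gen (w.under (𝓞 F)) h2 (h.bad_od h2)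
  obtain ⟨he, -, ht, -, hg⟩ := h3 w rfl
  have hc := Full.card h hP₀
  refine ⟨ht, ?_, hg⟩
  have h4 := od_map (k := F) w (ℓ : F)
  rw [map_natCast, h1, he, mul_one] at h4
  rw [h4, ← hc]
  push_cast
  ring

section
variable {F N N₂ L : Type u} [Field F] [NumberField F] [Algebra K F] [Field N] [NumberField N]
  [Algebra K N] [Field N₂] [NumberField N₂] [Algebra K N₂] [Field L] [NumberField L] [Algebra K L]
  [Algebra F N] [Algebra F N₂] [Algebra F L] [Algebra N L] [Algebra N₂ L]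
  [IsScalarTower K F N] [IsScalarTower K F N₂] [IsScalarTower K F L] [IsScalarTower K N L]
  [IsScalarTower K N₂ L] [IsScalarTower F N L] [IsScalarTower F N₂ L]
  [DecidableEq F] [DecidableEq N] [DecidableEq N₂] [DecidableEq L]
  [IsGalois F N] [IsGalois F N₂] [IsGalois F L]
  {ϖ : 𝓞 K} {ℓ q : ℕ} {P₀ : Pt N} {P₂ : Pt N₂} {ζ : L} {κ : Gal(L/F) → Pt L}
  (D : TC ϖ ℓ q P₀ P₂ ζ κ)
include D

theorem TC.vv
    (hun : ∀ v : HeightOneSpectrum (𝓞 F), v.valuation F (ℓ : F) < 1 → od v (ℓ : F) = 1)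
    (h3 : DT ϖ F) (hc : DTb (cj ϖ) ϖ F)
    (hloc : ∀ W : HeightOneSpectrum (𝓞 L), LocSol κ W)
    {φ : 𝓞 K →+ ZMod ℓ} (hφ : φ ≠ 0) {y : Nˣ} {α : L} (hK : KC F ϖ ℓ P₀ P₂ ζ κ φ y α) : VV F ϖ ℓ P₀ y := by
  have iG : IsGalois N L := IsGalois.tower_top_of_isGalois F N L
  have h := D.pd
  have hod : ∀ w : HeightOneSpectrum (𝓞 N), (ℓ : ℤ) ∣ od w (y : N) := by
    intro w
    by_cases hw : w.valuation N (bD N) = 1 ∧ w.valuation N (algebraMap K N (cj ϖ : K)) = 1
    · obtain ⟨W, rfl⟩ := CF.exists_over (k := N) (N := L) w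
      have h3' : W.valuation L (bD L) = 1 := by
        have e := (val_map_eq W (bD N)).2 hw.1
        rwa [bD, map_intCast] at e
      have hc' : W.valuation L (algebraMap K L (cj ϖ : K)) = 1 := by
        have e := (val_map_eq W (algebraMap K N (cj ϖ : K))).2 hw.2
        rwa [← IsScalarTower.algebraMap_apply K N L] at e
      exact dvd_od hK.pow W (D.unram W h3' hc' (hloc W))
    · have hσ : ∃ σ : Gal(N/F), σ ≠ 1 ∧ gpl σ w = w := by
        rcases not_and_or.1 hw with h1 | h1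
        · refine h3 N P₀ D.full w (lt_of_le_of_ne ?_ h1)
          exact v_int_le (w.valuation N) _
        · exact hc N P₀ D.full w (lt_of_le_of_ne (v_alg_le (w.valuation N) _) h1)
      obtain ⟨σ, hσ1, hσ2⟩ := hσ
      exact Iso.od_fix h D.full hK.iso hσ2 hσ1
  refine ⟨hod, hK.iso, ?_⟩
  intro w hw
  rcases pd_cases h with ⟨-, hcop⟩ | ⟨hq, hi⟩
  · have hn : ¬ ϖ ∣ cj ϖ := fun e => h.prime.not_isUnit (hcop.isUnit_of_dvd' dvd_rfl e)
    have h1 := pd_val_coprime h hw hn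
    have h2 := h.bad_pi hw
    obtain ⟨W, rfl⟩ := CF.exists_over (k := N) (N := L) w
    have h3' : W.valuation L (bD L) = 1 := by
      have e := (val_map_eq W (bD N)).2 h2
      rwa [bD, map_intCast] at e
    have hc' : W.valuation L (algebraMap K L (cj ϖ : K)) = 1 := by
      have e := (val_map_eq W (algebraMap K N (cj ϖ : K))).2 h1
      rwa [← IsScalarTower.algebraMap_apply K N L] at e
    have hw' : W.valuation L (algebraMap K L (ϖ : K)) < 1 := by
      have e := (val_map_lt W (algebraMap K N (ϖ : K))).2 hw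
      rwa [← IsScalarTower.algebraMap_apply K N L] at e
    exact wloc_unram h y.ne_zero hK.pow W (D.unram W h3' hc' (hloc W)) hw'
  · obtain ⟨ht, hl, -⟩ := vh_ram h hun D.full w hw
    have hv : (w.under (𝓞 F)).valuation F (algebraMap K F (ϖ : K)) < 1 := by
      rw [← val_map_lt, ← IsScalarTower.algebraMap_apply K F N]
      exact hw
    refine D.wloc_inert hi hq hφ hK hloc w hw ht ?_ (hod w)
    rw [hl, hq]
    push_cast
    ring

/-- a locally trivial cocycle with values in the points killed by `cj ϖ` is a coboundary -/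
theorem TC.cob (hV : VT ϖ ℓ F)
    (hun : ∀ v : HeightOneSpectrum (𝓞 F), v.valuation F (ℓ : F) < 1 → od v (ℓ : F) = 1)
    (h3 : DT ϖ F) (hc : DTb (cj ϖ) ϖ F) (hloc : ∀ W : HeightOneSpectrum (𝓞 L), LocSol κ W) :
    ∃ S : Pt L, ∀ g : Gal(L/F), κ g = ga g S - S := by
  obtain ⟨φ, hφ, hφ0⟩ := exists_phi D.pd
  obtain ⟨y, α, hK⟩ := D.exists_KC φ hφ0
  have hy : ∃ z : Nˣ, y = z ^ ℓ := hV N P₀ D.full y (D.vv hun h3 hc hloc hφ hK)
  exact D.cob_of_coprime (D.card_coprime (fun g h0 h2 => D.kap_zero hφ hK hy g h0 h2))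

end

end Pool.Agent.Lib.MP_1a91b9_ntX.DH
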